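import Mathlib

/-! Elementary lemmas on sums over initial segments of the naturals modulo prime powers. -/

namespace Pool.Agent.MP_32607b_nt.H62

open Finset

/-- Block decomposition of a sum over `range (m * N)`. -/
theorem sum_blocks (φ : ℕ → ℤ) (N m : ℕ) :
    ∑ h ∈ range (m * N), φ h = ∑ j ∈ range m, ∑ h ∈ range N, φ (j * N + h) := by
  induction m with
  | zero => simp
  | succ m ih => rw [Nat.succ_mul, sum_range_add, ih, sum_range_succ]

/-- The induction engine. -/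
theorem engine (p : ℤ) (κ : ℕ) (S : ℕ → ℤ) (h0 : p ^ κ ∣ S 0)
    (hs : ∀ t, p ^ (t + κ + 1) ∣ S (t + 1) - p * S t) (t : ℕ) : p ^ (t + κ) ∣ S t := by
  induction t with
  | zero => simpa using h0
  | succ t ih =>
    have h1 : p ^ (t + κ + 1) ∣ p * S t := by
      rw [pow_succ']; exact mul_dvd_mul_left p ih
    have h2 := dvd_add (hs t) h1
    have e : t + 1 + κ = t + κ + 1 := by ring
    rw [e]; simpa using h2

/-- Sum lemma with gain: `ψ (y + z) ≡ ψ y` mod `p^(t+1)` whenever `p^t ∣ z`. -/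
theorem sum_gain (p : ℕ) (ψ : ℕ → ℤ)
    (hψ : ∀ t y z : ℕ, p ^ t ∣ z → (p : ℤ) ^ (t + 1) ∣ ψ (z + y) - ψ y)
    (t M : ℕ) (hM : p ^ t ∣ M) : (p : ℤ) ^ t ∣ ∑ y ∈ range M, ψ y := by
  obtain ⟨u, rfl⟩ := hM
  have := engine (p : ℤ) 0 (fun t => ∑ y ∈ range (p ^ t * u), ψ y) (by simp) ?_ t
  · simpa using this
  · intro t
    have e : p ^ (t + 1) * u = p * (p ^ t * u) := by ring
    simp only [e]
    rw [sum_blocks]
    have e2 : (p : ℤ) * ∑ y ∈ range (p ^ t * u), ψ y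
        = ∑ _j ∈ range p, ∑ y ∈ range (p ^ t * u), ψ y := by simp
    rw [e2, ← sum_sub_distrib]
    refine dvd_sum fun j _ => ?_
    rw [← sum_sub_distrib]
    refine dvd_sum fun y _ => ?_
    exact hψ t y _ (Dvd.dvd.mul_left (Dvd.intro _ rfl) j)

/-- Sum lemma without gain. -/
theorem sum_nogain (p q : ℕ) (φ : ℕ → ℤ)
    (hφ : ∀ t y z : ℕ, q * p ^ t ∣ z → (p : ℤ) ^ t ∣ φ (z + y) - φ y)
    (t N : ℕ) (hN : q * p ^ (t + 1) ∣ N) : (p : ℤ) ^ t ∣ ∑ y ∈ range N, φ y := by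
  obtain ⟨u, rfl⟩ := hN
  have e : q * p ^ (t + 1) * u = (p ^ t * u) * (q * p) := by ring
  rw [e, sum_blocks]
  refine sum_gain p (fun j => ∑ h ∈ range (q * p), φ (j * (q * p) + h)) ?_ t _ (Dvd.intro _ rfl)
  intro t y z hz
  rw [← sum_sub_distrib]
  refine dvd_sum fun i _ => ?_
  have e2 : (z + y) * (q * p) + i = z * (q * p) + (y * (q * p) + i) := by ring
  rw [e2]
  refine hφ (t + 1) _ _ ?_
  obtain ⟨w, rfl⟩ := hz
  exact ⟨w, by ring⟩

/-- Polynomial sums: loss of one power of `p`. -/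
theorem poly_sum_nogain (p : ℕ) (f : Polynomial ℤ) (t N : ℕ) (hN : p ^ (t + 1) ∣ N) :
    (p : ℤ) ^ t ∣ ∑ y ∈ range N, f.eval (y : ℤ) := by
  refine sum_nogain p 1 (fun y => f.eval (y : ℤ)) ?_ t N (by simpa using hN)
  intro t y z hz
  refine dvd_trans ?_ (Polynomial.sub_dvd_eval_sub _ _ f)
  simp only [one_mul] at hz
  push_cast
  rw [add_sub_cancel_right]
  exact_mod_cast hz

/-- Polynomial sums: no loss when the sum over one period vanishes mod the odd number `p`. -/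
theorem poly_sum_gain (p : ℕ) (hp : Odd p) (f : Polynomial ℤ)
    (h1 : (p : ℤ) ∣ ∑ y ∈ range p, f.eval (y : ℤ)) (t N : ℕ) (hN : p ^ t ∣ N) :
    (p : ℤ) ^ t ∣ ∑ y ∈ range N, f.eval (y : ℤ) := by
  rcases t with _ | t
  · simp
  obtain ⟨u, rfl⟩ := hN
  have := engine (p : ℤ) 1 (fun t => ∑ y ∈ range (p ^ (t + 1) * u), f.eval (y : ℤ)) ?_ ?_ t
  · simpa using this
  · have e : p ^ (0 + 1) * u = u * p := by ring
    simp only [e, sum_blocks, pow_one]
    refine dvd_sum fun j _ => ?_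
    have h2 : (p : ℤ) ∣ ∑ y ∈ range p, f.eval ((j * p + y : ℕ) : ℤ)
        - ∑ y ∈ range p, f.eval (y : ℤ) := by
      rw [← sum_sub_distrib]
      refine dvd_sum fun y _ => ?_
      refine dvd_trans ?_ (Polynomial.sub_dvd_eval_sub _ _ f)
      push_cast
      exact ⟨j, by ring⟩
    simpa using dvd_add h2 h1
  · intro t
    set N := p ^ (t + 1) * u with hN
    have e : p ^ (t + 1 + 1) * u = p * N := by rw [hN]; ring
    simp only [e, sum_blocks]
    rw [sum_comm, mul_sum, ← sum_sub_distrib]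
    refine dvd_sum fun y _ => ?_
    have hNd : (p : ℤ) ^ (t + 1) ∣ (N : ℤ) := by
      rw [hN]; push_cast; exact Dvd.intro _ rfl
    have h3 : ∀ j : ℕ, (p : ℤ) ^ (t + 1 + 1) ∣ f.eval ((j * N + y : ℕ) : ℤ)
        - (f.eval (y : ℤ) + f.derivative.eval (y : ℤ) * N * j) := by
      intro j
      obtain ⟨k, hk⟩ := f.binomExpansion (y : ℤ) (j * N)
      have e3 : ((j * N + y : ℕ) : ℤ) = y + j * N := by push_cast; ring
      rw [e3, hk]
      obtain ⟨w, hw⟩ := hNd
      refine ⟨k * j ^ 2 * w ^ 2 * p ^ t, ?_⟩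
      rw [hw]; ring
    have h4 : (p : ℤ) ^ (t + 1 + 1) ∣ ∑ j ∈ range p, f.eval ((j * N + y : ℕ) : ℤ)
        - ∑ j ∈ range p, (f.eval (y : ℤ) + f.derivative.eval (y : ℤ) * N * j) := by
      rw [← sum_sub_distrib]
      exact dvd_sum fun j _ => h3 j
    have h5 : (p : ℤ) ∣ ∑ j ∈ range p, (j : ℤ) := by
      obtain ⟨c, hc⟩ := hp
      have h6 := Finset.sum_range_id_mul_two p
      have h7 : ∑ j ∈ range p, j = p * c := by
        have : p - 1 = 2 * c := by omega
        rw [this] at h6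
        nlinarith
      have h8 : ∑ j ∈ range p, (j : ℤ) = ((∑ j ∈ range p, j : ℕ) : ℤ) := by push_cast; rfl
      rw [h8, h7]; push_cast; exact Dvd.intro _ rfl
    rw [sum_add_distrib, ← mul_sum] at h4
    have h9 : (p : ℤ) ^ (t + 1 + 1) ∣ f.derivative.eval (y : ℤ) * N * ∑ j ∈ range p, (j : ℤ) := by
      rw [pow_succ, mul_assoc]
      exact Dvd.dvd.mul_left (mul_dvd_mul hNd h5) _
    have h10 := dvd_add h4 h9
    simp only [sum_const, card_range, nsmul_eq_mul] at h10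
    convert h10 using 1
    ring

/-- The reflection identity. -/
theorem reflect (φ : ℤ → ℤ) (c n : ℕ) (hodd : ∀ x : ℤ, φ (c - x) = - φ x)
    (hz : ∀ h : ℕ, h ≤ c → φ h = 0) :
    2 * ∑ h ∈ range n, φ h = ∑ h ∈ Ico (c + 1) n, (φ ((c - h) + n) - φ (c - h)) := by
  have h1 : ∑ h ∈ range n, φ h = ∑ h ∈ Ico (c + 1) n, φ h := by
    symm
    refine sum_subset (fun h hh => ?_) (fun h hh hn => ?_)
    · simp only [mem_Ico, mem_range] at hh ⊢; exact hh.2
    · simp only [mem_Ico, mem_range] at hh hn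
      exact hz h (by omega)
  have h2 : ∑ h ∈ Ico (c + 1) n, φ ((c - h) + n) = ∑ h ∈ Ico (c + 1) n, φ h := by
    refine sum_nbij' (fun h => n + c - h) (fun h => n + c - h) ?_ ?_ ?_ ?_ ?_
    · intro h hh; simp only [mem_Ico] at hh ⊢; omega
    · intro h hh; simp only [mem_Ico] at hh ⊢; omega
    · intro h hh; simp only [mem_Ico] at hh ⊢; omega
    · intro h hh; simp only [mem_Ico] at hh ⊢; omega
    · intro h hh
      simp only [mem_Ico] at hh
      congr 1
      have : h ≤ n + c := by omega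
      push_cast [this]; ring
  rw [sum_sub_distrib, h2, h1]
  simp only [hodd, sum_neg_distrib]
  ring

/-- Antisymmetric polynomials with double zeros: first order expansion of the sum. -/
theorem poly_reflect (Q : Polynomial ℤ) (c n : ℕ) (hodd : ∀ x : ℤ, Q.eval (c - x) = - Q.eval x)
    (hz : ∀ h : ℕ, h ≤ c → Q.eval (h : ℤ) = 0)
    (hz' : ∀ h : ℕ, h ≤ c → Q.derivative.eval (h : ℤ) = 0) :
    (n : ℤ) ^ 2 ∣ 2 * ∑ h ∈ range n, Q.eval (h : ℤ)
      - n * ∑ h ∈ range n, Q.derivative.eval ((c : ℤ) - h) := by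
  rw [reflect (fun x => Q.eval x) c n hodd hz]
  have h1 : ∑ h ∈ range n, Q.derivative.eval ((c : ℤ) - h)
      = ∑ h ∈ Ico (c + 1) n, Q.derivative.eval ((c : ℤ) - h) := by
    symm
    refine sum_subset (fun h hh => ?_) (fun h hh hn => ?_)
    · simp only [mem_Ico, mem_range] at hh ⊢; exact hh.2
    · simp only [mem_Ico, mem_range] at hh hn
      have hc : h ≤ c := by omega
      have := hz' (c - h) (by omega)
      rwa [Nat.cast_sub hc] at this
  rw [h1, mul_sum, ← sum_sub_distrib]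
  refine dvd_sum fun h _ => ?_
  obtain ⟨k, hk⟩ := Q.binomExpansion ((c : ℤ) - h) n
  rw [hk]
  exact ⟨k, by ring⟩

end Pool.Agent.MP_32607b_nt.H62
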