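import Pool.Agent.MP_32607b_nt.H62.Basic

/-! `p`-adic continuity of binomial coefficients and the general bound. -/

namespace Pool.Agent.MP_32607b_nt.H62

open Finset

theorem pow_dvd_of_mul {p : ℕ} (hp : p.Prime) {v t j X : ℕ} (hj : ¬ p ^ (v + 1) ∣ j)
    (h : p ^ (v + t) ∣ X * j) : p ^ t ∣ X := by
  have hj0 : j ≠ 0 := by rintro rfl; exact hj (dvd_zero _)
  obtain ⟨w, j', hj', rfl⟩ := Nat.exists_eq_pow_mul_and_not_dvd hj0 p hp.ne_one
  have hw : w ≤ v := by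
    by_contra hc
    exact hj (Dvd.dvd.mul_right (pow_dvd_pow p (by omega)) _)
  have h1 : p ^ w * p ^ t ∣ p ^ w * (X * j') := by
    have : p ^ (w + t) ∣ p ^ (v + t) := pow_dvd_pow p (by omega)
    have h2 := dvd_trans this h
    rw [pow_add] at h2
    have e : p ^ w * (X * j') = X * (p ^ w * j') := by ring
    rwa [e]
  have h3 : p ^ t ∣ X * j' := Nat.dvd_of_mul_dvd_mul_left (pow_pos hp.pos w) h1
  exact (Nat.Coprime.pow_left t ((Nat.Prime.coprime_iff_not_dvd hp).2 hj')).dvd_of_dvd_mul_right h3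

theorem pow_dvd_choose {p : ℕ} (hp : p.Prime) {v t j z : ℕ} (hj : ¬ p ^ (v + 1) ∣ j)
    (hz : p ^ (v + t) ∣ z) : p ^ t ∣ z.choose j := by
  have hj0 : j ≠ 0 := by rintro rfl; exact hj (dvd_zero _)
  obtain ⟨i, rfl⟩ := Nat.exists_eq_succ_of_ne_zero hj0
  rcases z with _ | z
  · simp
  refine pow_dvd_of_mul hp hj ?_
  have := Nat.add_one_mul_choose_eq z i
  rw [Nat.succ_eq_add_one, ← this]
  exact Dvd.dvd.mul_right hz _

theorem pow_dvd_choose' {p : ℕ} (hp : p.Prime) {v t j z : ℕ} (hj0 : 0 < j) (hj : j < p ^ (v + 1))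
    (hz : p ^ (v + t) ∣ z) : (p : ℤ) ^ t ∣ (z.choose j : ℤ) := by
  have := pow_dvd_choose hp (fun h => absurd (Nat.le_of_dvd hj0 h) (by omega)) hz
  exact_mod_cast this

/-- Vandermonde with the zero term split off. -/
theorem vandermonde (x : ℤ) (z c : ℕ) :
    Ring.choose (x + z) c = Ring.choose x c
      + ∑ j ∈ range c, (z.choose (j + 1) : ℤ) * Ring.choose x (c - (j + 1)) := by
  rw [add_comm x, Ring.add_choose_eq c (Commute.all _ _),
    Finset.Nat.sum_antidiagonal_eq_sum_range_succ_mk, sum_range_succ']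
  simp only [Ring.choose_natCast, Nat.choose_zero_right, Nat.cast_one, one_mul, Nat.sub_zero]
  ring

theorem choose_cont {p : ℕ} (hp : p.Prime) {v t c z : ℕ} (x : ℤ) (hc : c < p ^ (v + 1))
    (hz : p ^ (v + t) ∣ z) : (p : ℤ) ^ t ∣ Ring.choose (x + z) c - Ring.choose x c := by
  rw [vandermonde, add_sub_cancel_left]
  refine dvd_sum fun j hj => Dvd.dvd.mul_right ?_ _
  rw [mem_range] at hj
  exact pow_dvd_choose' hp (by omega) (by omega) hz

theorem choose_reflect {a : ℕ} (ha : Odd a) (x : ℤ) :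
    Ring.choose (((a - 1 : ℕ) : ℤ) - x) a = - Ring.choose x a := by
  have h1 : 1 ≤ a := ha.pos
  have e : (((a - 1 : ℕ) : ℤ) - x) = -(x + 1 - a) := by push_cast [h1]; ring
  rw [e, Ring.choose_neg]
  have e2 : x + 1 - a + a - 1 = x := by ring
  rw [e2, Int.negOnePow_odd _ (by exact_mod_cast ha)]
  simp

/-- The sums `W j`. -/
noncomputable def W (a r n j : ℕ) : ℤ :=
  ∑ h ∈ range n, Ring.choose (((a - 1 : ℕ) : ℤ) - h) a ^ (r - 1)
    * Ring.choose (((a - 1 : ℕ) : ℤ) - h) (a - (j + 1))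

/-- First order expansion of twice the sum. -/
theorem expansion {p : ℕ} (hp : p.Prime) {a r n v t : ℕ} (ha : Odd a) (hr : Odd r) (hr2 : 2 ≤ r)
    (hav : a < p ^ (v + 1)) (hn : p ^ (v + t) ∣ n) :
    (p : ℤ) ^ (2 * t) ∣ 2 * ∑ h ∈ range n, (h.choose a : ℤ) ^ r
      - r * ∑ j ∈ range a, (n.choose (j + 1) : ℤ) * W a r n j := by
  have h1 : 1 ≤ a := ha.pos
  have hrefl := reflect (fun x => Ring.choose x a ^ r) (a - 1) n
    (fun x => by simp only [choose_reflect ha x, hr.neg_pow]) (fun h hh => by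
      simp only [Ring.choose_natCast]
      rw [Nat.choose_eq_zero_of_lt (by omega)]
      simp [hr.pos.ne'])
  simp only [Ring.choose_natCast] at hrefl
  rw [hrefl]
  have h2 : ∑ j ∈ range a, (n.choose (j + 1) : ℤ) * W a r n j
      = ∑ h ∈ Ico (a - 1 + 1) n, Ring.choose (((a - 1 : ℕ) : ℤ) - h) a ^ (r - 1)
        * ∑ j ∈ range a, (n.choose (j + 1) : ℤ)
          * Ring.choose (((a - 1 : ℕ) : ℤ) - h) (a - (j + 1)) := by
    have h3 : ∑ j ∈ range a, (n.choose (j + 1) : ℤ) * W a r n j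
      = ∑ h ∈ range n, Ring.choose (((a - 1 : ℕ) : ℤ) - h) a ^ (r - 1)
        * ∑ j ∈ range a, (n.choose (j + 1) : ℤ)
          * Ring.choose (((a - 1 : ℕ) : ℤ) - h) (a - (j + 1)) := by
      simp only [W, mul_sum]
      rw [sum_comm]
      refine sum_congr rfl fun h _ => sum_congr rfl fun j _ => by ring
    rw [h3]
    symm
    refine sum_subset (fun h hh => ?_) (fun h hh hn => ?_)
    · simp only [mem_Ico, mem_range] at hh ⊢; exact hh.2
    · simp only [mem_Ico, mem_range] at hh hn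
      rw [choose_reflect ha, Ring.choose_natCast, Nat.choose_eq_zero_of_lt (by omega)]
      have : r - 1 ≠ 0 := by omega
      simp [this]
  rw [h2, mul_sum, ← sum_sub_distrib]
  refine dvd_sum fun h _ => ?_
  set x : ℤ := ((a - 1 : ℕ) : ℤ) - h
  set e : ℤ := ∑ j ∈ range a, (n.choose (j + 1) : ℤ) * Ring.choose x (a - (j + 1)) with he
  have hv : Ring.choose (x + n) a = Ring.choose x a + e := vandermonde x n a
  have hd : (p : ℤ) ^ t ∣ e := by
    have := choose_cont hp x hav hn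
    rwa [hv, add_sub_cancel_left] at this
  rw [hv]
  have h4 := sq_dvd_add_pow_sub_sub e (Ring.choose x a) r
  have h5 : (p : ℤ) ^ (2 * t) ∣ e ^ 2 := by
    rw [mul_comm, pow_mul]; exact pow_dvd_pow_of_dvd hd 2
  have h6 := dvd_trans h5 h4
  convert h6 using 1
  ring

theorem W_dvd {p : ℕ} (hp : p.Prime) {a r n v t : ℕ} (j : ℕ)
    (hav : a < p ^ (v + 1)) (hn : p ^ (v + (t + 1)) ∣ n) : (p : ℤ) ^ t ∣ W a r n j := by
  refine sum_nogain p (p ^ v) (fun h => Ring.choose (((a - 1 : ℕ) : ℤ) - h) a ^ (r - 1)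
    * Ring.choose (((a - 1 : ℕ) : ℤ) - h) (a - (j + 1))) ?_ t n (by rwa [← pow_add])
  intro t y z hz
  rw [← pow_add] at hz
  set x : ℤ := ((a - 1 : ℕ) : ℤ) - ((z + y : ℕ) : ℤ) with hx
  have e : ((a - 1 : ℕ) : ℤ) - (y : ℤ) = x + z := by rw [hx]; push_cast; ring
  simp only [e]
  have h1 := choose_cont hp x hav hz
  have h2 := choose_cont (c := a - (j + 1)) hp x (by omega) hz
  have h1' : Ring.choose x a ≡ Ring.choose (x + z) a [ZMOD (p : ℤ) ^ t] := Int.modEq_iff_dvd.2 h1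
  have h2' : Ring.choose x (a - (j + 1)) ≡ Ring.choose (x + z) (a - (j + 1)) [ZMOD (p : ℤ) ^ t] :=
    Int.modEq_iff_dvd.2 h2
  exact Int.modEq_iff_dvd.1 ((h1'.pow (r - 1)).mul h2').symm

/-- General bound: `p^(2t+1)` divides twice the sum when `p^(v+t+1) ∣ n`, `a < p^(v+1)`. -/
theorem general_bound {p : ℕ} (hp : p.Prime) {a r n v t : ℕ} (ha : Odd a) (hr : Odd r)
    (hr2 : 2 ≤ r) (hav : a < p ^ (v + 1)) (hn : p ^ (v + (t + 1)) ∣ n) :
    (p : ℤ) ^ (2 * t + 1) ∣ 2 * ∑ h ∈ range n, (h.choose a : ℤ) ^ r := by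
  have h1 := expansion hp ha hr hr2 hav hn
  have h2 : (p : ℤ) ^ (2 * t + 1) ∣ ∑ j ∈ range a, (n.choose (j + 1) : ℤ) * W a r n j := by
    refine dvd_sum fun j hj => ?_
    rw [mem_range] at hj
    have e : 2 * t + 1 = (t + 1) + t := by ring
    rw [e, pow_add]
    exact mul_dvd_mul (pow_dvd_choose' hp (by omega) (by omega) hn) (W_dvd hp j hav hn)
  have h3 : (p : ℤ) ^ (2 * t + 1) ∣ (p : ℤ) ^ (2 * (t + 1)) := pow_dvd_pow _ (by omega)
  simpa using dvd_add (dvd_trans h3 h1) (Dvd.dvd.mul_left h2 (r : ℤ))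

/-- For `q = p^(v+1)`: refined Vandermonde. -/
theorem choose_cont_top {p : ℕ} (hp : p.Prime) {v t z : ℕ} (x : ℤ)
    (hz : p ^ (v + 1 + t) ∣ z) : (p : ℤ) ^ (t + 1) ∣ Ring.choose (x + z) (p ^ (v + 1))
      - (Ring.choose x (p ^ (v + 1)) + (z.choose (p ^ (v + 1)) : ℤ)) := by
  obtain ⟨c, hc⟩ : ∃ c, p ^ (v + 1) = c + 1 :=
    Nat.exists_eq_succ_of_ne_zero (pow_pos hp.pos _).ne'
  rw [vandermonde, hc, sum_range_succ]
  simp only [Nat.sub_self, Ring.choose_zero_right, mul_one]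
  have : (p : ℤ) ^ (t + 1) ∣
      ∑ j ∈ range c, (z.choose (j + 1) : ℤ) * Ring.choose x (c + 1 - (j + 1)) := by
    refine dvd_sum fun j hj => Dvd.dvd.mul_right ?_ _
    rw [mem_range] at hj
    refine pow_dvd_choose' (v := v) hp (by omega) (by omega) ?_
    have e : v + (t + 1) = v + 1 + t := by ring
    rwa [e]
  convert this using 1
  ring

theorem pow_shift_congr {p : ℤ} {t k : ℕ} {Y c δ : ℤ} (hδ : p ^ t ∣ δ) (hY : p ∣ Y - c) :
    p ^ (t + 1) ∣ ((Y + δ) ^ k - Y ^ k) - ((c + δ) ^ k - c ^ k) := by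
  rw [← (Commute.all (Y + δ) Y).geom_sum₂_mul k, ← (Commute.all (c + δ) c).geom_sum₂_mul k]
  simp only [add_sub_cancel_left]
  rw [← sub_mul, pow_succ']
  refine mul_dvd_mul ?_ hδ
  rw [← sum_sub_distrib]
  refine dvd_sum fun i _ => ?_
  have h : c ≡ Y [ZMOD p] := Int.modEq_iff_dvd.2 hY
  exact Int.modEq_iff_dvd.1 (((h.add_right δ).pow i).mul (h.pow (k - 1 - i)))

theorem top_sum_dvd {p : ℕ} (hp : p.Prime) {v t n : ℕ} (k : ℕ) (hn : p ^ (v + 1 + t) ∣ n) :
    (p : ℤ) ^ t ∣ ∑ h ∈ range n, (h.choose (p ^ (v + 1)) : ℤ) ^ k := by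
  obtain ⟨u, rfl⟩ := hn
  set q := p ^ (v + 1) with hq
  have e : p ^ (v + 1 + t) * u = (p ^ t * u) * q := by rw [hq]; ring
  rw [e, sum_blocks]
  refine sum_gain p (fun y => ∑ h ∈ range q, ((y * q + h).choose q : ℤ) ^ k) ?_ t _
    (Dvd.intro _ rfl)
  intro t y z hz
  have hzq : p ^ (v + 1 + t) ∣ z * q := by
    obtain ⟨w, rfl⟩ := hz
    exact ⟨w, by rw [hq]; ring⟩
  set δ : ℤ := ((z * q).choose q : ℤ) with hδ
  set c : ℤ := ((y * q).choose q : ℤ) with hc
  have hδd : (p : ℤ) ^ t ∣ δ := by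
    refine pow_dvd_choose' (v := v + 1) hp (pow_pos hp.pos _) ?_ hzq
    exact Nat.pow_lt_pow_right hp.one_lt (by omega)
  set ρ : ℤ := (c + δ) ^ k - c ^ k with hρ
  have hρd : (p : ℤ) ^ t ∣ ρ := by
    refine dvd_trans hδd ?_
    simpa using sub_dvd_pow_sub_pow (c + δ) c k
  have key : ∀ i ∈ range q, (p : ℤ) ^ (t + 1) ∣
      ((((z + y) * q + i).choose q : ℤ) ^ k - ((y * q + i).choose q : ℤ) ^ k) - ρ := by
    intro i hi
    rw [mem_range] at hi
    set Y : ℤ := ((y * q + i).choose q : ℤ) with hY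
    have h1 := choose_cont_top hp ((y * q + i : ℕ) : ℤ) hzq
    have e1 : ((y * q + i : ℕ) : ℤ) + ((z * q : ℕ) : ℤ) = (((z + y) * q + i : ℕ) : ℤ) := by
      push_cast; ring
    rw [e1, Ring.choose_natCast, Ring.choose_natCast] at h1
    have h2 := choose_cont_top (v := v) (t := 0) (z := y * q) hp (i : ℤ)
      (by rw [add_zero]; exact Dvd.intro_left _ rfl)
    have e2 : (i : ℤ) + ((y * q : ℕ) : ℤ) = ((y * q + i : ℕ) : ℤ) := by push_cast; ring
    rw [e2, Ring.choose_natCast, Ring.choose_natCast, Nat.choose_eq_zero_of_lt hi] at h2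
    have h3 : (p : ℤ) ∣ Y - c := by simpa using h2
    have h4 := pow_shift_congr (k := k) hδd h3
    have h5 : (p : ℤ) ^ (t + 1) ∣ (((z + y) * q + i).choose q : ℤ) ^ k - (Y + δ) ^ k :=
      dvd_trans h1 (sub_dvd_pow_sub_pow _ _ k)
    have e3 : ((((z + y) * q + i).choose q : ℤ) ^ k - Y ^ k) - ρ
        = ((Y + δ) ^ k - Y ^ k - ((c + δ) ^ k - c ^ k))
          + ((((z + y) * q + i).choose q : ℤ) ^ k - (Y + δ) ^ k) := by rw [hρ]; ring
    rw [e3]
    exact dvd_add h4 h5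
  have h6 := dvd_sum key
  rw [sum_sub_distrib, sum_sub_distrib] at h6
  have h7 : (p : ℤ) ^ (t + 1) ∣ ∑ _i ∈ range q, ρ := by
    simp only [sum_const, card_range, nsmul_eq_mul]
    rw [pow_succ']
    refine mul_dvd_mul ?_ hρd
    rw [hq]; push_cast
    exact dvd_pow_self _ (by omega)
  simpa using dvd_add h6 h7

/-- Improved bound for `a = p^(v+1)`. -/
theorem power_bound {p : ℕ} (hp : p.Prime) {r n v t : ℕ} (ha : Odd (p ^ (v + 1))) (hr : Odd r)
    (hr2 : 2 ≤ r) (hn : p ^ (v + 1 + t) ∣ n) :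
    (p : ℤ) ^ (2 * t) ∣ 2 * ∑ h ∈ range n, (h.choose (p ^ (v + 1)) : ℤ) ^ r := by
  rcases t with _ | t
  · simp
  set a := p ^ (v + 1) with hadef
  have hav : a < p ^ (v + 1 + 1) := Nat.pow_lt_pow_right hp.one_lt (by omega)
  have h1 := expansion hp ha hr hr2 hav hn
  have h2 : (p : ℤ) ^ (2 * (t + 1)) ∣ ∑ j ∈ range a, (n.choose (j + 1) : ℤ) * W a r n j := by
    refine dvd_sum fun j hj => ?_
    rw [mem_range] at hj
    by_cases hja : j + 1 = a
    · have e : 2 * (t + 1) = (t + 1) + (t + 1) := by ring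
      rw [e, pow_add]
      refine mul_dvd_mul (pow_dvd_choose' hp (by omega) (by omega) hn) ?_
      have h3 : W a r n j = ∑ h ∈ range n, (h.choose a : ℤ) ^ (r - 1) := by
        unfold W
        refine sum_congr rfl fun h _ => ?_
        rw [hja, Nat.sub_self, Ring.choose_zero_right, mul_one, choose_reflect ha,
          Ring.choose_natCast, Even.neg_pow]
        obtain ⟨m, rfl⟩ := hr
        simp
      rw [h3]
      exact top_sum_dvd hp _ hn
    · have e : 2 * (t + 1) = (t + 2) + t := by ring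
      rw [e, pow_add]
      refine mul_dvd_mul (pow_dvd_choose' (v := v) hp (by omega) (by omega) ?_) (W_dvd hp j hav hn)
      have e2 : v + (t + 2) = v + 1 + (t + 1) := by ring
      rwa [e2]
  simpa using dvd_add h1 (Dvd.dvd.mul_left h2 (r : ℤ))

end Pool.Agent.MP_32607b_nt.H62
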