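import Pool.Agent.MP_32607b_nt.H62.Special

/-! Valuation of the prefactor and assembly. -/

namespace Pool.Agent.MP_32607b_nt.H62

open Finset

theorem fact_pow_dvd (a r : ℕ) : a.factorial ^ r ∣ (a * r + 1).factorial := by
  have h := Nat.prod_factorial_dvd_factorial_sum (range r) (fun _ => a)
  simp only [prod_const, card_range, sum_const, smul_eq_mul] at h
  exact dvd_trans h (Nat.factorial_dvd_factorial (by nlinarith))

theorem mul_div_le (a r q : ℕ) (hq : 0 < q) : r * (a / q) ≤ (a * r + 1) / q := by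
  rw [Nat.le_div_iff_mul_le hq]
  have := Nat.div_mul_le_self a q
  nlinarith

theorem pow_dvd_pref {p : ℕ} (hp : p.Prime) (a r i j e : ℕ) (hi : 1 ≤ i) (hij : i < j)
    (he : e + (r * (a / p ^ i) + r * (a / p ^ j)) ≤ (a * r + 1) / p ^ i + (a * r + 1) / p ^ j) :
    p ^ e ∣ (a * r + 1).factorial / a.factorial ^ r := by
  have hd := fact_pow_dvd a r
  have hne : (a * r + 1).factorial / a.factorial ^ r ≠ 0 :=
    (Nat.div_pos (Nat.le_of_dvd (Nat.factorial_pos _) hd) (pow_pos (Nat.factorial_pos _) _)).ne'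
  rw [hp.pow_dvd_iff_le_factorization hne, Nat.factorization_div hd]
  set b := a * r + 1 + a + j + 1 with hb
  have hb1 : Nat.log p (a * r + 1) < b := lt_of_le_of_lt (Nat.log_le_self _ _) (by omega)
  have hb2 : Nat.log p a < b := lt_of_le_of_lt (Nat.log_le_self _ _) (by omega)
  simp only [Nat.factorization_pow, Finsupp.coe_tsub, Finsupp.coe_smul, Pi.sub_apply,
    Pi.smul_apply, smul_eq_mul]
  rw [Nat.factorization_factorial hp hb1, Nat.factorization_factorial hp hb2, mul_sum]
  have h1 : ∑ k ∈ Ico 1 b, (a * r + 1) / p ^ k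
      = ∑ k ∈ Ico 1 b, r * (a / p ^ k) + ∑ k ∈ Ico 1 b, ((a * r + 1) / p ^ k - r * (a / p ^ k)) := by
    rw [← sum_add_distrib]
    refine sum_congr rfl fun k _ => ?_
    have := mul_div_le a r (p ^ k) (pow_pos hp.pos _)
    omega
  rw [h1, Nat.add_sub_cancel_left]
  have h2 : ({i, j} : Finset ℕ) ⊆ Ico 1 b := by
    intro k hk
    simp only [mem_insert, mem_singleton] at hk
    simp only [mem_Ico]
    omega
  refine le_trans ?_ (sum_le_sum_of_subset h2)
  rw [sum_pair hij.ne]
  have h3 := mul_div_le a r (p ^ i) (pow_pos hp.pos _)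
  have h4 := mul_div_le a r (p ^ j) (pow_pos hp.pos _)
  omega

theorem aux_pow (p w : ℕ) (h : 5 ≤ p ∨ (3 ≤ p ∧ 1 ≤ w)) : 2 * (w + 2) + 1 ≤ p ^ (w + 1) + p ^ w := by
  have h1 : w + 1 ≤ 2 ^ w := Nat.lt_two_pow_self
  rcases h with h | ⟨h, hw⟩
  · have h2 : 2 ^ w ≤ p ^ w := Nat.pow_le_pow_left (by omega) w
    rw [pow_succ]; nlinarith
  · have h2 : 3 ^ w ≤ p ^ w := Nat.pow_le_pow_left h w
    have h3 : 2 * w + 1 ≤ 3 ^ w := by
      clear h1 hw h2
      induction w with
      | zero => simp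
      | succ w ih => rw [pow_succ]; omega
    rw [pow_succ]; nlinarith

/-- The valuation of the prefactor: case analysis. -/
theorem pref_cases {p : ℕ} (hp : p.Prime) {a r v : ℕ} (ha : Odd a) (hr : Odd r) (ha3 : 3 ≤ a)
    (har : a ≤ r) (hv1 : p ^ v ≤ a) (hv2 : a < p ^ (v + 1)) :
    (p = 2 ∧ p ^ (2 * v + 2) ∣ (a * r + 1).factorial / a.factorial ^ r)
    ∨ (2 < p ∧ p ^ (2 * v + 1) ∣ (a * r + 1).factorial / a.factorial ^ r)
    ∨ (2 < p ∧ 1 ≤ v ∧ a = p ^ v ∧ p ^ (2 * v) ∣ (a * r + 1).factorial / a.factorial ^ r)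
    ∨ (2 < p ∧ a = p ∧ r < 2 * p ∧ p ∣ (a * r + 1).factorial / a.factorial ^ r)
    ∨ (a * r + 1 < p) := by
  have hbig : ∀ k, v + 1 ≤ k → a / p ^ k = 0 := fun k hk =>
    Nat.div_eq_of_lt (lt_of_lt_of_le hv2 (Nat.pow_le_pow_right hp.pos hk))
  have haa : a * a ≤ a * r := Nat.mul_le_mul_left a har
  rcases hp.eq_two_or_odd' with rfl | hodd
  · left
    refine ⟨rfl, ?_⟩
    obtain ⟨w, rfl⟩ : ∃ w, v = w + 1 := by
      rcases v with _ | w
      · simp at hv2; omega
      · exact ⟨w, rfl⟩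
    refine pow_dvd_pref hp a r 1 (w + 1 + 1) _ le_rfl (by omega) ?_
    rw [hbig _ le_rfl]
    obtain ⟨α, hα⟩ := ha
    obtain ⟨ρ, hρ⟩ := hr
    set P := 2 ^ w with hP
    have hP1 : 2 ^ (w + 1) = 2 * P := by rw [hP]; ring
    have hP2 : 2 ^ (w + 1 + 1) = 4 * P := by rw [hP]; ring
    have hPw : w + 1 ≤ P := Nat.lt_two_pow_self
    rw [hP1] at hv1
    have h1 : a / 2 ^ 1 = α := by omega
    have h2 : (a * r + 1) / 2 ^ 1 = r * α + ρ + 1 := by
      have : a * r + 1 = 2 * (r * α + ρ + 1) := by rw [hα, hρ]; ring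
      omega
    have h3 : P + 1 ≤ (a * r + 1) / 2 ^ (w + 1 + 1) := by
      rw [hP2, Nat.le_div_iff_mul_le (by omega)]
      have : 2 * P + 1 ≤ a := by omega
      nlinarith
    rw [h1, h2]
    omega
  have hp2 : 2 < p := by
    have := hp.two_le
    obtain ⟨c, hc⟩ := hodd
    omega
  right
  rcases v with _ | _ | w
  · -- p > a
    by_cases hl : a * r + 1 < p
    · right; right; right; exact hl
    · left
      refine ⟨hp2, pow_dvd_pref hp a r 1 2 _ le_rfl (by omega) ?_⟩
      rw [hbig 1 (by omega), hbig 2 (by omega)]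
      have : 1 ≤ (a * r + 1) / p ^ 1 := by
        rw [Nat.le_div_iff_mul_le (by positivity)]; simp only [pow_one]; omega
      simpa using le_add_right this
  · -- p ≤ a < p^2
    simp only [zero_add, pow_one] at hv1
    have hq1 := mul_div_le a r (p ^ 1) (by positivity)
    by_cases hap : a = p
    · by_cases hr2 : r < 2 * p
      · right; right; left
        refine ⟨hp2, hap, hr2, ?_⟩
        have := pow_dvd_pref hp a r 1 2 1 le_rfl (by omega) ?_
        · simpa using this
        rw [hbig 2 (by omega)]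
        have : 1 ≤ (a * r + 1) / p ^ 2 := by
          rw [Nat.le_div_iff_mul_le (by positivity)]; nlinarith
        omega
      · right; left
        refine ⟨hp2, by omega, by simpa using hap, pow_dvd_pref hp a r 1 2 _ le_rfl (by omega) ?_⟩
        rw [hbig 2 (by omega)]
        have : 2 ≤ (a * r + 1) / p ^ 2 := by
          rw [Nat.le_div_iff_mul_le (by positivity)]; nlinarith
        omega
    · left
      refine ⟨hp2, pow_dvd_pref hp a r 1 2 _ le_rfl (by omega) ?_⟩
      rw [hbig 2 (by omega)]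
      by_cases h2p : a < 2 * p
      · have hp2' : p + 2 ≤ a := by
          obtain ⟨c, hc⟩ := hodd
          obtain ⟨d, hd⟩ := ha
          omega
        have h1 : a / p ^ 1 = 1 := by
          rw [pow_one]; exact Nat.div_eq_of_lt_le (by omega) (by omega)
        have h2 : r + 2 ≤ (a * r + 1) / p ^ 1 := by
          rw [Nat.le_div_iff_mul_le (by positivity), pow_one]; nlinarith
        have h3 : 1 ≤ (a * r + 1) / p ^ 2 := by
          rw [Nat.le_div_iff_mul_le (by positivity)]; nlinarith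
        rw [h1]; omega
      · have h3 : 4 ≤ (a * r + 1) / p ^ 2 := by
          rw [Nat.le_div_iff_mul_le (by positivity)]; nlinarith
        omega
  · -- p^(w+2) ≤ a
    have hsq : p ^ (w + 1 + 1) * p ^ (w + 1 + 1) ≤ a * r + 1 :=
      le_trans (Nat.mul_le_mul hv1 hv1) (by omega)
    have h1 : p ^ (w + 1) ≤ (a * r + 1) / p ^ (w + 1 + 1 + 1) := by
      rw [Nat.le_div_iff_mul_le (by positivity)]
      refine le_trans (le_of_eq ?_) hsq; ring
    have h2 : p ^ w ≤ (a * r + 1) / p ^ (w + 1 + 1 + 1 + 1) := by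
      rw [Nat.le_div_iff_mul_le (by positivity)]
      refine le_trans (le_of_eq ?_) hsq; ring
    by_cases hc : 5 ≤ p ∨ (3 ≤ p ∧ 1 ≤ w)
    · left
      refine ⟨hp2, pow_dvd_pref hp a r (w + 1 + 1 + 1) (w + 1 + 1 + 1 + 1) _ (by omega)
        (by omega) ?_⟩
      rw [hbig _ le_rfl, hbig _ (by omega)]
      have := aux_pow p w hc
      omega
    · have hp3 : p = 3 := by
        obtain ⟨c, hc'⟩ := hodd
        omega
      have hw : w = 0 := by omega
      subst hp3 hw
      by_cases h9 : a = 9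
      · right; left
        refine ⟨hp2, by omega, by simpa using h9, pow_dvd_pref hp a r 3 4 _ (by omega)
          (by omega) ?_⟩
        rw [hbig 3 le_rfl, hbig 4 (by omega)]
        norm_num at h1 h2 ⊢
        omega
      · left
        refine ⟨hp2, pow_dvd_pref hp a r 3 4 _ (by omega) (by omega) ?_⟩
        rw [hbig 3 le_rfl, hbig 4 (by omega)]
        have h11 : 11 ≤ a := by
          obtain ⟨d, hd⟩ := ha
          norm_num at hv1
          omega
        have : 121 ≤ a * r := by nlinarith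
        norm_num
        omega

theorem prime_pow_dvd {p : ℕ} (hp : p.Prime) {a r n s : ℕ} (ha : Odd a) (hr : Odd r) (ha3 : 3 ≤ a)
    (har : a ≤ r) (hn : p ^ s ∣ n) :
    p ^ (2 * s) ∣ (a * r + 1).factorial / a.factorial ^ r * ∑ h ∈ range n, h.choose a ^ r := by
  set C := (a * r + 1).factorial / a.factorial ^ r with hC
  set S := ∑ h ∈ range n, h.choose a ^ r with hS
  have hSc : (S : ℤ) = ∑ h ∈ range n, (h.choose a : ℤ) ^ r := by rw [hS]; push_cast; rfl
  set v := Nat.log p a with hv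
  have hv1 : p ^ v ≤ a := Nat.pow_log_le_self p (by omega)
  have hv2 : a < p ^ (v + 1) := Nat.lt_pow_succ_log_self hp.one_lt a
  have comb : ∀ e f : ℕ, p ^ e ∣ C → (p : ℤ) ^ f ∣ (S : ℤ) → 2 * s ≤ e + f → p ^ (2 * s) ∣ C * S := by
    intro e f h1 h2 h3
    have h4 : p ^ f ∣ S := by exact_mod_cast h2
    refine dvd_trans (pow_dvd_pow p h3) ?_
    rw [pow_add]; exact mul_dvd_mul h1 h4
  rcases pref_cases hp ha hr ha3 har hv1 hv2 with ⟨h2, hd⟩ | ⟨h2, hd⟩ | ⟨h2, hv0, hav, hd⟩ |
    ⟨h2, hap, hr2, hd⟩ | hl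
  · by_cases hs : s ≤ v
    · exact comb _ 0 hd (by simp) (by omega)
    · obtain ⟨t, rfl⟩ : ∃ t, s = v + (t + 1) := ⟨s - v - 1, by omega⟩
      have h3 := general_bound hp ha hr (by omega) hv2 hn
      rw [← hSc] at h3
      refine comb _ (2 * t) hd ?_ (by omega)
      subst h2
      rw [pow_succ'] at h3
      exact (mul_dvd_mul_iff_left (by norm_num)).1 h3
  · by_cases hs : s ≤ v
    · exact comb _ 0 hd (by simp) (by omega)
    · obtain ⟨t, rfl⟩ : ∃ t, s = v + (t + 1) := ⟨s - v - 1, by omega⟩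
      have h3 := general_bound hp ha hr (by omega) hv2 hn
      rw [← hSc] at h3
      exact comb _ (2 * t + 1) hd (cancel_unit hp (not_dvd_two h2) h3) (by omega)
  · by_cases hs : s ≤ v
    · exact comb _ 0 hd (by simp) (by omega)
    · obtain ⟨w, hw⟩ : ∃ w, v = w + 1 := ⟨v - 1, by omega⟩
      obtain ⟨t, rfl⟩ : ∃ t, s = w + 1 + t := ⟨s - v, by omega⟩
      rw [hw] at hav
      have h3 := power_bound (v := w) hp (hav ▸ ha) hr (by omega) hn
      rw [← hav, ← hSc] at h3
      exact comb _ (2 * t) hd (cancel_unit hp (not_dvd_two h2) h3) (by omega)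
  · rcases s with _ | t
    · simp
    · have h3 := special_bound hp h2 hr (by omega) hr2 hn
      rw [← hap, ← hSc, hap] at h3
      exact comb 1 (2 * t + 1) (by simpa using hd) h3 (by omega)
  · have h3 := large_bound hp ha hr (by omega) hl hn
    rw [← hSc] at h3
    exact comb 0 (2 * s) (by simp) h3 (by omega)

theorem main {a r n : ℕ} (ha : Odd a) (hr : Odd r) (ha3 : 3 ≤ a) (har : a ≤ r) (hn : 0 < n) :
    n ^ 2 ∣ (a * r + 1).factorial / a.factorial ^ r * ∑ h ∈ range n, h.choose a ^ r := by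
  rw [Nat.dvd_iff_prime_pow_dvd_dvd]
  intro p k hp hk
  have h1 := prime_pow_dvd hp ha hr ha3 har (Nat.ordProj_dvd n p)
  refine dvd_trans (pow_dvd_pow p ?_) h1
  rw [hp.pow_dvd_iff_le_factorization (by positivity)] at hk
  simpa [Nat.factorization_pow] using hk

end Pool.Agent.MP_32607b_nt.H62
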