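import Pool.Agent.MP_32607b_nt.H62.Binom

/-! The two cases treated with polynomials: large primes and `a = p ≤ r < 2p`. -/

namespace Pool.Agent.MP_32607b_nt.H62

open Finset Polynomial

theorem sum_range_zmod (p : ℕ) [NeZero p] (φ : ZMod p → ZMod p) :
    ∑ y ∈ range p, φ (y : ZMod p) = ∑ x : ZMod p, φ x := by
  refine sum_nbij' (fun y => (y : ZMod p)) (fun x => x.val) ?_ ?_ ?_ ?_ ?_
  · intro y _; simp
  · intro x _; simp [ZMod.val_lt]
  · intro y hy; simp only [mem_range] at hy; simp [ZMod.val_natCast, Nat.mod_eq_of_lt hy]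
  · intro x _; simp
  · intro y _; rfl

theorem powsum_dvd {p : ℕ} (hp : p.Prime) {i : ℕ} (hi : i = 0 ∨ ¬ (p - 1) ∣ i) :
    (p : ℤ) ∣ ∑ y ∈ range p, (y : ℤ) ^ i := by
  rcases Nat.eq_zero_or_pos i with rfl | hpos
  · simp
  have hiq : ¬ (p - 1) ∣ i := by
    rcases hi with h | h
    · omega
    · exact h
  have := Fact.mk hp
  rw [← ZMod.intCast_zmod_eq_zero_iff_dvd]
  push_cast
  rw [sum_range_zmod p (fun x => x ^ i)]
  classical
  let φ : (ZMod p)ˣ ↪ ZMod p := ⟨fun x ↦ x, Units.val_injective⟩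
  have : univ.map φ = univ \ {0} := by
    ext x
    simpa only [mem_map, mem_univ, Function.Embedding.coeFn_mk, true_and, mem_sdiff,
      mem_singleton, φ] using! isUnit_iff_ne_zero
  calc
    ∑ x : ZMod p, x ^ i = ∑ x ∈ univ \ {(0 : ZMod p)}, x ^ i := by
      rw [← sum_sdiff ({0} : Finset (ZMod p)).subset_univ, sum_singleton, zero_pow hpos.ne',
        add_zero]
    _ = ∑ x : (ZMod p)ˣ, (x ^ i : ZMod p) := by simp [φ, ← this, univ.sum_map φ]
    _ = 0 := by
      rw [FiniteField.sum_pow_units (ZMod p) i, if_neg]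
      rwa [ZMod.card]

theorem lowdeg_sum_dvd {p : ℕ} (hp : p.Prime) (g : ℤ[X]) (hg : g.natDegree < p - 1) :
    (p : ℤ) ∣ ∑ y ∈ range p, g.eval (y : ℤ) := by
  simp only [eval_eq_sum_range]
  rw [sum_comm]
  refine dvd_sum fun i hi => ?_
  rw [← mul_sum]
  refine Dvd.dvd.mul_left (powsum_dvd hp ?_) _
  rw [mem_range] at hi
  rcases Nat.eq_zero_or_pos i with rfl | hpos
  · exact Or.inl rfl
  · exact Or.inr fun h => absurd (Nat.le_of_dvd hpos h) (by omega)

theorem desc_eval (a : ℕ) (x : ℤ) :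
    (descPochhammer ℤ a).eval x = (a.factorial : ℤ) * Ring.choose x a := by
  rw [eval_eq_smeval, Ring.descPochhammer_eq_factorial_smul_choose, nsmul_eq_mul]

theorem cancel_unit {p : ℕ} (hp : p.Prime) {k : ℕ} {u X : ℤ} (hu : ¬ (p : ℤ) ∣ u)
    (h : (p : ℤ) ^ k ∣ u * X) : (p : ℤ) ^ k ∣ X :=
  (Nat.prime_iff_prime_int.1 hp).pow_dvd_of_dvd_mul_left k hu h

theorem not_dvd_two {p : ℕ} (h2 : 2 < p) : ¬ (p : ℤ) ∣ 2 := by
  intro h
  have : p ∣ 2 := by exact_mod_cast h
  exact absurd (Nat.le_of_dvd (by norm_num) this) (by omega)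

theorem not_dvd_fact_pow {p a : ℕ} (hp : p.Prime) (ha : a < p) (r : ℕ) :
    ¬ (p : ℤ) ∣ (a.factorial : ℤ) ^ r := by
  intro h
  have h1 := (Nat.prime_iff_prime_int.1 hp).dvd_of_dvd_pow h
  have h2 : p ∣ a.factorial := by exact_mod_cast h1
  exact absurd ((Nat.Prime.dvd_factorial hp).1 h2) (by omega)

/-- Large primes. -/
theorem large_bound {p : ℕ} (hp : p.Prime) {a r n t : ℕ} (ha : Odd a) (hr : Odd r)
    (hr2 : 2 ≤ r) (hlarge : a * r + 1 < p) (hn : p ^ t ∣ n) :
    (p : ℤ) ^ (2 * t) ∣ ∑ h ∈ range n, (h.choose a : ℤ) ^ r := by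
  have ha1 : 1 ≤ a := ha.pos
  have har : a ≤ a * r := Nat.le_mul_of_pos_right a (by omega)
  have har2 : r ≤ a * r := Nat.le_mul_of_pos_left r (by omega)
  have hp2 : 2 < p := by omega
  set f := descPochhammer ℤ a with hf
  have hzero : ∀ h : ℕ, h ≤ a - 1 → f.eval (h : ℤ) = 0 := by
    intro h hh
    rw [hf, desc_eval, Ring.choose_natCast, Nat.choose_eq_zero_of_lt (by omega)]
    simp
  have h1 := poly_reflect (f ^ r) (a - 1) n
    (fun x => by
      rw [eval_pow, eval_pow, hf, desc_eval, desc_eval, choose_reflect ha, mul_neg, hr.neg_pow])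
    (fun h hh => by rw [eval_pow, hzero h hh, zero_pow (by omega)])
    (fun h hh => by
      rw [derivative_pow, eval_mul, eval_mul, eval_pow, hzero h hh, zero_pow (by omega)]
      simp)
  set g : ℤ[X] := (derivative (f ^ r)).comp (C ((a - 1 : ℕ) : ℤ) - X) with hg
  have hge : ∀ y : ℤ, g.eval y = (derivative (f ^ r)).eval (((a - 1 : ℕ) : ℤ) - y) := by
    intro y; rw [hg, eval_comp]; simp
  have hdeg : g.natDegree < p - 1 := by
    have h2 : g.natDegree ≤ (derivative (f ^ r)).natDegree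
        * (C ((a - 1 : ℕ) : ℤ) - X : ℤ[X]).natDegree := natDegree_comp_le
    have h3 : (C ((a - 1 : ℕ) : ℤ) - X : ℤ[X]).natDegree ≤ 1 := by compute_degree
    have h4 : (derivative (f ^ r)).natDegree ≤ (f ^ r).natDegree - 1 :=
      natDegree_derivative_le _
    have h5 : (f ^ r).natDegree ≤ r * a := by
      refine natDegree_pow_le.trans ?_
      rw [hf, descPochhammer_natDegree]
    have h6 : g.natDegree ≤ (derivative (f ^ r)).natDegree := by
      refine h2.trans ?_
      calc _ ≤ (derivative (f ^ r)).natDegree * 1 := Nat.mul_le_mul_left _ h3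
        _ = _ := mul_one _
    rw [mul_comm] at h5
    omega
  have h7 := poly_sum_gain p (hp.odd_of_ne_two (by omega)) g (lowdeg_sum_dvd hp g hdeg) t n hn
  simp only [hge] at h7
  have hn' : (p : ℤ) ^ t ∣ (n : ℤ) := by exact_mod_cast hn
  have h8 : (p : ℤ) ^ (2 * t) ∣ (n : ℤ) ^ 2 := by
    rw [mul_comm, pow_mul]; exact pow_dvd_pow_of_dvd hn' 2
  have h9 : (p : ℤ) ^ (2 * t) ∣
      n * ∑ h ∈ range n, (derivative (f ^ r)).eval (((a - 1 : ℕ) : ℤ) - h) := by
    rw [two_mul, pow_add]; exact mul_dvd_mul hn' h7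
  have h10 := dvd_add (dvd_trans h8 h1) h9
  rw [sub_add_cancel] at h10
  have h11 := cancel_unit hp (not_dvd_two hp2) h10
  have h12 : ∑ h ∈ range n, (f ^ r).eval (h : ℤ)
      = (a.factorial : ℤ) ^ r * ∑ h ∈ range n, (h.choose a : ℤ) ^ r := by
    rw [mul_sum]
    refine sum_congr rfl fun h _ => ?_
    rw [eval_pow, hf, desc_eval, Ring.choose_natCast, mul_pow]
  rw [h12] at h11
  exact cancel_unit hp (not_dvd_fact_pow hp (by omega) r) h11

/-- The cofactor polynomials. -/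
noncomputable def gpoly (p i : ℕ) : ℤ[X] := ∏ j ∈ (range p).erase i, (X + C ((i : ℤ) - j))

theorem desc_eval_prod (a : ℕ) (x : ℤ) :
    (descPochhammer ℤ a).eval x = ∏ j ∈ range a, (x - j) := by
  induction a with
  | zero => simp
  | succ a ih => rw [descPochhammer_succ_eval, ih, prod_range_succ]

theorem gpoly_spec {p i : ℕ} (hp : 0 < p) (hi : i < p) (y : ℤ) :
    ((p - 1).factorial : ℤ) * Ring.choose ((i : ℤ) + p * y) p = y * (gpoly p i).eval (p * y) := by
  have h1 := desc_eval p ((i : ℤ) + p * y)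
  rw [desc_eval_prod, ← mul_prod_erase (range p) _ (mem_range.2 hi)] at h1
  have h2 : (gpoly p i).eval (p * y) = ∏ j ∈ (range p).erase i, ((i : ℤ) + p * y - j) := by
    rw [gpoly, eval_prod]
    refine prod_congr rfl fun j _ => ?_
    simp only [eval_add, eval_X, eval_C]; ring
  rw [← h2] at h1
  have h3 : (p.factorial : ℤ) = p * ((p - 1).factorial : ℤ) := by
    exact_mod_cast (Nat.mul_factorial_pred hp.ne').symm
  rw [h3] at h1
  have hp' : (p : ℤ) ≠ 0 := by exact_mod_cast hp.ne'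
  apply mul_left_cancel₀ hp'
  linear_combination -h1

theorem prod_erase_eq (i d : ℕ) :
    ∏ j ∈ (range (i + d + 1)).erase i, ((i : ℤ) - j)
      = (-1) ^ d * (i.factorial : ℤ) * (d.factorial : ℤ) := by
  induction d with
  | zero =>
    have : (range (i + 0 + 1)).erase i = range i := by
      ext j; simp only [mem_erase, mem_range]; omega
    rw [this, ← desc_eval_prod, desc_eval, Ring.choose_natCast]
    simp
  | succ d ih =>
    have : (range (i + (d + 1) + 1)).erase i = insert (i + d + 1) ((range (i + d + 1)).erase i) := by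
      ext j; simp only [mem_erase, mem_range, mem_insert]; omega
    rw [this, prod_insert (by simp), ih, Nat.factorial_succ]
    push_cast; ring

theorem gpoly_zero {p i : ℕ} (hp : Odd p) (hi : i < p) :
    (gpoly p i).eval 0 * ((-1) ^ i * ((p - 1).choose i : ℤ)) = ((p - 1).factorial : ℤ) := by
  obtain ⟨d, rfl⟩ : ∃ d, p = i + d + 1 := ⟨p - 1 - i, by omega⟩
  have h1 : (gpoly (i + d + 1) i).eval 0 = ∏ j ∈ (range (i + d + 1)).erase i, ((i : ℤ) - j) := by
    rw [gpoly, eval_prod]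
    refine prod_congr rfl fun j _ => ?_
    simp
  rw [h1, prod_erase_eq, Nat.add_sub_cancel]
  have h2 : Even (i + d) := by
    obtain ⟨c, hc⟩ := hp
    exact ⟨c, by omega⟩
  have h3 : ((-1 : ℤ)) ^ d * (-1) ^ i = 1 := by
    rw [← pow_add, add_comm]; exact h2.neg_one_pow
  have h4 : ((i + d).factorial : ℤ) = ((i + d).choose i : ℤ) * i.factorial * d.factorial := by
    have := Nat.add_choose_mul_factorial_mul_factorial d i
    rw [add_comm d i] at this
    rw [← this]; push_cast; ring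
  rw [h4]
  linear_combination ((i.factorial : ℤ) * d.factorial * ((i + d).choose i : ℤ)) * h3

theorem gpoly_zero_mod {p i : ℕ} (hp : p.Prime) (hi : i < p) :
    (p : ℤ) ∣ (gpoly p i).eval 0 - ((p - 1).factorial : ℤ) := by
  have h1 := gpoly_spec hp.pos hi 1
  simp only [mul_one, one_mul] at h1
  have h2 := choose_cont_top (v := 0) (t := 0) (z := p) hp (i : ℤ) (by simp)
  simp only [zero_add, pow_one, Nat.choose_self, Nat.cast_one] at h2
  rw [Ring.choose_natCast, Nat.choose_eq_zero_of_lt hi] at h2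
  have h3 : (p : ℤ) ∣ (gpoly p i).eval (p : ℤ) - (gpoly p i).eval 0 := by
    simpa using sub_dvd_eval_sub (p : ℤ) 0 (gpoly p i)
  have h4 := dvd_sub (Dvd.dvd.mul_left h2 ((p - 1).factorial : ℤ)) h3
  rw [← h1] at h4
  have e : (gpoly p i).eval 0 - ((p - 1).factorial : ℤ) =
      ((p - 1).factorial : ℤ) * (Ring.choose ((i : ℤ) + p) p - (((0 : ℕ) : ℤ) + 1))
        - (((p - 1).factorial : ℤ) * Ring.choose ((i : ℤ) + p) p - (gpoly p i).eval 0) := by
    push_cast; ring
  rwa [e]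

theorem gamma_dvd {p : ℕ} (hp : p.Prime) (r : ℕ) :
    (p : ℤ) ∣ ∑ i ∈ range p, (gpoly p i).eval 0 ^ r := by
  have h1 : (p : ℤ) ∣ ∑ i ∈ range p, ((gpoly p i).eval 0 ^ r - ((p - 1).factorial : ℤ) ^ r) :=
    dvd_sum fun i hi => dvd_trans (gpoly_zero_mod hp (mem_range.1 hi)) (sub_dvd_pow_sub_pow _ _ r)
  rw [sum_sub_distrib] at h1
  have h2 : (p : ℤ) ∣ ∑ _i ∈ range p, ((p - 1).factorial : ℤ) ^ r := by simp
  simpa using dvd_add h1 h2

theorem gamma_dvd_sq {p : ℕ} (hp : p.Prime) (hp2 : 2 < p) :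
    (p : ℤ) ^ 2 ∣ ∑ i ∈ range p, (gpoly p i).eval 0 ^ (2 * p - 1) := by
  have hodd : Odd p := hp.odd_of_ne_two (by omega)
  set F : ℤ := ((p - 1).factorial : ℤ) with hF
  have h1 : (p : ℤ) ^ 2 ∣ ∑ i ∈ range p, (F * (gpoly p i).eval 0 ^ (2 * p - 1)
      - F ^ (2 * p) * ((-1) ^ i * ((p - 1).choose i : ℤ))) := by
    refine dvd_sum fun i hi => ?_
    rw [mem_range] at hi
    have h2 := dvd_sub_pow_of_dvd_sub (gpoly_zero_mod hp hi) 1
    simp only [pow_one] at h2
    have h3 : (p : ℤ) ^ 2 ∣ (gpoly p i).eval 0 ^ (2 * p) - F ^ (2 * p) := by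
      refine dvd_trans h2 ?_
      rw [mul_comm 2 p, pow_mul, pow_mul]
      exact sub_dvd_pow_sub_pow _ _ 2
    have h4 := gpoly_zero hodd hi
    have h5 : (gpoly p i).eval 0 ^ (2 * p) = (gpoly p i).eval 0 ^ (2 * p - 1) * (gpoly p i).eval 0 := by
      rw [← pow_succ]; congr 1; omega
    have e : F * (gpoly p i).eval 0 ^ (2 * p - 1) - F ^ (2 * p) * ((-1) ^ i * ((p - 1).choose i : ℤ))
        = ((gpoly p i).eval 0 ^ (2 * p) - F ^ (2 * p)) * ((-1) ^ i * ((p - 1).choose i : ℤ)) := by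
      rw [h5]
      linear_combination (-(gpoly p i).eval 0 ^ (2 * p - 1)) * h4
    rw [e]
    exact Dvd.dvd.mul_right h3 _
  rw [sum_sub_distrib, ← mul_sum, ← mul_sum] at h1
  have h6 : ∑ i ∈ range p, ((-1) ^ i * ((p - 1).choose i : ℤ)) = 0 := by
    have := Int.alternating_sum_range_choose_of_ne (n := p - 1) (by omega)
    rwa [Nat.sub_add_cancel hp.pos] at this
  rw [h6, mul_zero, sub_zero] at h1
  refine cancel_unit hp ?_ h1
  simpa using not_dvd_fact_pow (a := p - 1) hp (by omega) 1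

/-- The special case `a = p ≤ r < 2 p`. -/
theorem special_bound {p : ℕ} (hp : p.Prime) (hp2 : 2 < p) {r n t : ℕ} (hr : Odd r)
    (hpr : p ≤ r) (hr2 : r < 2 * p) (hn : p ^ (t + 1) ∣ n) :
    (p : ℤ) ^ (2 * t + 1) ∣ ∑ h ∈ range n, (h.choose p : ℤ) ^ r := by
  have hodd : Odd p := hp.odd_of_ne_two (by omega)
  have hp0 : (p : ℤ) ≠ 0 := by exact_mod_cast hp.pos.ne'
  obtain ⟨u, rfl⟩ := hn
  set M := p ^ t * u with hM
  have e : p ^ (t + 1) * u = M * p := by rw [hM]; ring
  rw [e, sum_blocks]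
  set F : ℤ := ((p - 1).factorial : ℤ) with hF
  set Γ : ℤ[X] := ∑ i ∈ range p, gpoly p i ^ r with hΓ
  have hΓ0 : Γ.coeff 0 = ∑ i ∈ range p, (gpoly p i).eval 0 ^ r := by
    rw [coeff_zero_eq_eval_zero, hΓ, eval_finsetSum]
    simp only [eval_pow]
  obtain ⟨γ, hγ⟩ := gamma_dvd hp r
  set Ψ : ℤ[X] := C γ * X ^ r + X ^ (r + 1) * (divX Γ).comp (C (p : ℤ) * X) with hΨ
  have hΨe : ∀ y : ℤ, (p : ℤ) * Ψ.eval y
      = F ^ r * ∑ i ∈ range p, Ring.choose ((i : ℤ) + p * y) p ^ r := by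
    intro y
    have h1 : F ^ r * ∑ i ∈ range p, Ring.choose ((i : ℤ) + p * y) p ^ r
        = y ^ r * Γ.eval (p * y) := by
      rw [hΓ, eval_finsetSum, mul_sum, mul_sum]
      refine sum_congr rfl fun i hi => ?_
      rw [← mul_pow, gpoly_spec hp.pos (mem_range.1 hi), mul_pow, eval_pow]
    rw [h1]
    have h2 := congrArg (eval ((p : ℤ) * y)) (divX_mul_X_add Γ)
    rw [hΓ0, hγ] at h2
    simp only [eval_add, eval_mul, eval_X, eval_C] at h2
    rw [← h2, hΨ]
    simp only [eval_add, eval_mul, eval_X, eval_C, eval_pow, eval_comp]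
    ring
  have hΨodd : ∀ x : ℤ, Ψ.eval (((0 : ℕ) : ℤ) - x) = - Ψ.eval x := by
    intro x
    apply mul_left_cancel₀ hp0
    rw [mul_neg, hΨe, hΨe, ← sum_range_reflect _ p, ← mul_neg, ← sum_neg_distrib]
    congr 1
    refine sum_congr rfl fun i hi => ?_
    rw [mem_range] at hi
    rw [← hr.neg_pow, ← choose_reflect hodd]
    congr 2
    have : i ≤ p - 1 := by omega
    push_cast [this]; ring
  have hr0 : r ≠ 0 := by omega
  have hder : ∀ y : ℤ, Ψ.derivative.eval y = γ * r * y ^ (r - 1)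
      + (r + 1) * y ^ r * (divX Γ).eval (p * y)
      + p * (y ^ (r + 1) * (derivative (divX Γ)).eval (p * y)) := by
    intro y
    rw [hΨ]
    simp only [derivative_add, derivative_mul, derivative_C, derivative_X_pow, derivative_comp,
      derivative_X, eval_add, eval_mul, eval_C, eval_X, eval_pow, eval_comp, zero_mul, zero_add,
      mul_one, Nat.add_sub_cancel]
    push_cast; ring
  have h1 := poly_reflect Ψ 0 M hΨodd
    (fun h hh => by
      obtain rfl : h = 0 := by omega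
      rw [hΨ]; simp [hr0])
    (fun h hh => by
      obtain rfl : h = 0 := by omega
      have : r - 1 ≠ 0 := by omega
      rw [hder]; simp [hr0, this])
  set g : ℤ[X] := (derivative Ψ).comp (C ((0 : ℕ) : ℤ) - X) with hg
  have hge : ∀ y : ℤ, g.eval y = (derivative Ψ).eval (((0 : ℕ) : ℤ) - y) := by
    intro y; rw [hg, eval_comp]; simp
  have hre : Even (r - 1) := by
    obtain ⟨m, rfl⟩ := hr
    simp
  have hper : (p : ℤ) ∣ ∑ y ∈ range p, g.eval (y : ℤ) := by
    have h2 : (p : ℤ) ∣ ∑ y ∈ range p, (g.eval (y : ℤ)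
        - (γ * r * (y : ℤ) ^ (r - 1) - (r + 1) * (divX Γ).eval 0 * (y : ℤ) ^ r)) := by
      refine dvd_sum fun y _ => ?_
      rw [hge, hder]
      simp only [Nat.cast_zero, zero_sub, hre.neg_pow, hr.neg_pow]
      obtain ⟨w, hw⟩ := sub_dvd_eval_sub ((p : ℤ) * -y) 0 (divX Γ)
      refine ⟨(-(y : ℤ)) ^ (r + 1) * (derivative (divX Γ)).eval ((p : ℤ) * -(y : ℤ))
        + (r + 1) * y ^ r * y * w, ?_⟩
      linear_combination (-((r : ℤ) + 1) * y ^ r) * hw
    have h3 : (p : ℤ) ∣ ∑ y ∈ range p, (y : ℤ) ^ r := by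
      refine powsum_dvd hp (Or.inr fun h => ?_)
      have h4 : 2 ∣ p - 1 := by
        obtain ⟨c, hc⟩ := hodd
        exact ⟨c, by omega⟩
      have h5 := dvd_trans h4 h
      obtain ⟨m, hm⟩ := hr
      omega
    have h4 : (p : ℤ) ∣ γ * r * ∑ y ∈ range p, (y : ℤ) ^ (r - 1) := by
      by_cases hc : (p - 1) ∣ (r - 1)
      · obtain ⟨c, hc⟩ := hc
        have hc1 : c = 1 ∨ c = 2 := by
          rcases c with _ | _ | _ | c
          · omega
          · omega
          · omega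
          · exfalso
            have : (p - 1) * 3 ≤ (p - 1) * (c + 1 + 1 + 1) := Nat.mul_le_mul_left _ (by omega)
            omega
        rcases hc1 with rfl | rfl
        · have : r = p := by omega
          rw [this]
          exact Dvd.dvd.mul_right (Dvd.intro_left _ rfl) _
        · have h6 : r = 2 * p - 1 := by omega
          have h7 := gamma_dvd_sq hp hp2
          rw [← h6, hγ, pow_two] at h7
          exact Dvd.dvd.mul_right (Dvd.dvd.mul_right ((mul_dvd_mul_iff_left hp0).1 h7) _) _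
      · exact Dvd.dvd.mul_left (powsum_dvd hp (Or.inr hc)) _
    rw [sum_sub_distrib, sum_sub_distrib, ← mul_sum, ← mul_sum] at h2
    have h5 := dvd_add h2 (dvd_sub h4 (Dvd.dvd.mul_left h3 ((r + 1) * (divX Γ).eval 0)))
    simpa using h5
  have h7 := poly_sum_gain p hodd g hper t M (Dvd.intro _ rfl)
  simp only [hge] at h7
  have hn' : (p : ℤ) ^ t ∣ (M : ℤ) := by rw [hM]; push_cast; exact Dvd.intro _ rfl
  have h8 : (p : ℤ) ^ (2 * t) ∣ (M : ℤ) ^ 2 := by
    rw [mul_comm, pow_mul]; exact pow_dvd_pow_of_dvd hn' 2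
  have h9 : (p : ℤ) ^ (2 * t) ∣
      M * ∑ h ∈ range M, (derivative Ψ).eval (((0 : ℕ) : ℤ) - h) := by
    rw [two_mul, pow_add]; exact mul_dvd_mul hn' h7
  have h10 := dvd_add (dvd_trans h8 h1) h9
  rw [sub_add_cancel] at h10
  have h11 := cancel_unit hp (not_dvd_two hp2) h10
  have h12 : (p : ℤ) * ∑ y ∈ range M, Ψ.eval (y : ℤ)
      = F ^ r * ∑ j ∈ range M, ∑ h ∈ range p, ((j * p + h).choose p : ℤ) ^ r := by
    rw [mul_sum, mul_sum]
    refine sum_congr rfl fun y _ => ?_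
    rw [hΨe]
    congr 1
    refine sum_congr rfl fun i _ => ?_
    rw [← Ring.choose_natCast]
    congr 2
    push_cast; ring
  refine cancel_unit hp (not_dvd_fact_pow (a := p - 1) hp (by omega) r) ?_
  rw [← h12, pow_succ']
  exact mul_dvd_mul_left _ h11

end Pool.Agent.MP_32607b_nt.H62
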